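import Pool.Agent.Results.MP_cb2649_nt.Shifted

namespace Pool.Agent.Results.MP_cb2649_nt.Literal

open Pool.Agent.Results.MP_cb2649_nt.Shifted

theorem result : ¬ ∀ k : ℕ, 2 ≤ k → (G k = 1 ↔ k / P k > P k) := by
  intro h
  have h1 := (h 29 (by norm_num)).symm.trans (Shifted.result 29 (by norm_num))
  have h29 : Nat.Prime 29 := by norm_num
  have e1 : P 29 = 29 := by
    unfold P
    rw [h29.primeFactors, Finset.sup_singleton, h29.factorization_self, pow_one]
  have e2 : P 30 ≤ 5 := by
    unfold P
    apply Finset.sup_le
    intro p hp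
    have hsq : Squarefree 30 := by decide +kernel
    have h2 := hsq.natFactorization_le_one p
    have h3 : p ∣ 30 := Nat.dvd_of_mem_primeFactors hp
    have h4 := Nat.prime_of_mem_primeFactors hp
    have h5 : p ≤ 5 := by
      have := Nat.le_of_dvd (by norm_num) h3
      interval_cases p <;> first | omega | (exfalso; revert h4; norm_num)
    exact (Nat.pow_le_pow_right h4.pos h2).trans (by simpa using h5)
  have e3 : 0 < P 30 := by
    have : 2 ^ (30 : ℕ).factorization 2 ≤ P 30 :=
      Finset.le_sup (f := fun p => p ^ (30 : ℕ).factorization p) (by simp; norm_num)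
    exact (pow_pos (by norm_num) _).trans_le this
  rw [e1] at h1
  have h6 : (29 + 1) / P (29 + 1) > P (29 + 1) := by
    show 30 / P 30 > P 30
    interval_cases P 30 <;> norm_num
  have := h1.mpr h6
  norm_num at this

end Pool.Agent.Results.MP_cb2649_nt.Literal
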