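import Pool.Agent.H18.GcdBin

namespace Pool.Agent.Results.MP_cb2649_nt.Shifted

open Pool.Agent.H18.Carry Pool.Agent.H18.GcdBin

/-- the gcd of the binomial coefficients `choose (j * k) k`, `2 ≤ j ≤ k + 1` -/
def G (k : ℕ) : ℕ := (Finset.Icc 2 (k + 1)).gcd (fun j => (j * k).choose k)

/-- the largest of the prime powers `p ^ e` in the factorisation of `m` -/
def P (m : ℕ) : ℕ := m.primeFactors.sup (fun p => p ^ m.factorization p)

theorem result : ∀ k : ℕ, 2 ≤ k → (G k = 1 ↔ (k + 1) / P (k + 1) > P (k + 1)) := by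
  intro k hk
  constructor
  · intro hG
    by_contra hc
    have hne : (k + 1).primeFactors.Nonempty := Nat.nonempty_primeFactors.mpr (by omega)
    obtain ⟨p, hp, hP⟩ := Finset.exists_mem_eq_sup _ hne (fun p => p ^ (k + 1).factorization p)
    have hpp := Nat.prime_of_mem_primeFactors hp
    have hm := (Nat.ordProj_mul_ordCompl_eq_self (k + 1) p).symm
    unfold P at hc
    rw [hP] at hc
    have hd : p ∣ G k := by
      apply Finset.dvd_gcd
      intro j hj
      rw [Finset.mem_Icc] at hj
      obtain ⟨i, rfl⟩ : ∃ i, j = i + 1 := ⟨j - 1, by omega⟩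
      by_contra hnd
      rw [add_mul, one_mul, not_dvd_iff hpp] at hnd
      exact not_nc hpp hm (not_lt.mp hc) (by omega) (by omega) hnd
    rw [hG] at hd
    exact hpp.one_lt.ne' (Nat.dvd_one.mp hd)
  · intro h
    rw [Nat.eq_one_iff_not_exists_prime_dvd]
    intro p hp hd
    have hm := (Nat.ordProj_mul_ordCompl_eq_self (k + 1) p).symm
    have hm1 := Nat.not_dvd_ordCompl hp (by omega : k + 1 ≠ 0)
    have hlt : p ^ (k + 1).factorization p < (k + 1) / p ^ (k + 1).factorization p := by
      by_cases h0 : (k + 1).factorization p = 0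
      · rw [h0]; simp; omega
      · have hmem : p ∈ (k + 1).primeFactors := by
          rw [← Nat.support_factorization, Finsupp.mem_support_iff]; exact h0
        have hle : p ^ (k + 1).factorization p ≤ P (k + 1) :=
          Finset.le_sup (f := fun p => p ^ (k + 1).factorization p) hmem
        exact hle.trans_lt (lt_of_lt_of_le h (Nat.div_le_div_left hle (pow_pos hp.pos _)))
    obtain ⟨i, hi1, hi2, hnc⟩ := exists_nc hp hm hm1 hlt
    rw [← not_dvd_iff hp] at hnc
    apply hnc
    have := hd.trans (Finset.gcd_dvd (f := fun j => (j * k).choose k)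
      (Finset.mem_Icc.mpr ⟨(by omega : 2 ≤ i + 1), (by omega : i + 1 ≤ k + 1)⟩))
    rwa [add_mul, one_mul] at this

end Pool.Agent.Results.MP_cb2649_nt.Shifted
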